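import Pool.Agent.K4H13.HW.Inf
import Pool.Agent.K4H13.HW.Ex

/-!
# The order of vanishing formula for the newforms of all even weights and all the Artin motives of infinite
# abelian extensions of `ℚ` of mixed exponents

`f_1, …, f_r` are newforms of arbitrary even weights `2m_i`, levels `N_i`, trivial characters, and `M(f_i)` are
their motives of weight `2m_i - 1`. The polarized motives `M = M(f_i)(m_i) ⊗ N` over `ℚ`, `N` an Artin motive
with good reduction at `N_i`, are considered. A prime `l` is good for the forms if, for a prime ideal `λ` of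
the ring of all algebraic integers containing `l` and every `D`, there are infinitely many primes
`q ≡ 1 mod D` with `c_i(q) ≢ 2 mod λ` for all the Fourier coefficients `c_i(q)` (for one form this is the case
if its residual representation modulo `λ` is irreducible over the algebraic closure of the field with `l`
elements, by the theorems of Chebotarev and Clifford).

Theorem. Let `F` be a finite group of Dirichlet characters of squarefree conductors prime to the `N_i`, for
example the trivial group, with `L(f_i ⊗ ψ, m_i) ≠ 0` for all `ψ` in `F`. Let `l_1^n_1, l_2^n_2, …` be any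
infinite sequence of powers of good primes, and `B` a finite set of primes. Then there are even characters
`c_j` of order `l_j^n_j` and of pairwise coprime conductors, prime to those of `F` and to the `N_i`, with
`c_j(b) = 1` for `b ∈ B`, such that for the abelian extension `F_∞` of `ℚ` of the characters in `F` and the `c_j`
(so that `F_∞` is the composite of the field of `F` and of a totally real extension of `ℚ` with group
`∏ ℤ/l_j^n_j`, in which the primes in `B` split completely) and all the motives `M = M(f_i)(m_i) ⊗ N`,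
`N` any Artin motive over `ℚ` that is trivialized by a finite extension of `ℚ` in `F_∞`,

* `M` is polarized;
* `L(s, M)`, the Euler product over all the primes, is entire and not zero at `s = 0`.

By Kato's theorem (Astérisque 295, Theorem 14.2) one has `H¹_f(ℚ, M_p) = 0 = H⁰(ℚ, M_p)` for every prime `p`, as
soon as `L(0, M) ≠ 0`. So the formula of the problem holds for all these motives and for every `p`. By the lemma
of Shapiro this contains the formula for `M(f_i)(m_i) ⊗ N` over every number field `K` in `F_∞` and every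
Artin motive `N` over `K` trivialized by `F_∞`.

Proof. The sums of the central modular symbols of weight `2m`, twisted by a family of characters of order
`l^n`, are congruent modulo `λ` to the product of the factors `c(q) - 2` and of the untwisted value; the
symbols are in a finitely generated group (Eichler–Shimura).  The congruences are applied relatively to the
characters already constructed, as a correspondence between finite sets, with a finite number of additional
primes, so that no hypothesis on the base value modulo `l` is necessary, only that it is not zero.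
-/

set_option autoImplicit false

open Complex UpperHalfPlane MatrixGroups CongruenceSubgroup

namespace Pool.Agent.Results.MP_ec4e4b_nt.AllWeightsProductTowers

/-- The `n`-th Fourier coefficient of `f`. -/
noncomputable def coef {N m : ℕ}
    (f : CuspForm (Gamma0 N : Subgroup (GL (Fin 2) ℝ)) ((2 * m : ℕ) : ℤ)) (n : ℕ) : ℂ :=
  (qExpansion 1 f).coeff n

/-- `f ∈ S_(2m)(Γ₀(N))` is a newform, with its standard properties: the Fourier coefficients `c(n)` are
real with `c(1) = 1`, they satisfy the Hecke relations `c(ab) = c(a) c(b)` for coprime `a`, `b` and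
`c(p^(j+2)) = c(p) c(p^(j+1)) - p^(2m-1) c(p^j)` (without the last term if `p ∣ N`), and `f` is an
eigenfunction of the Fricke involution, `f(-1/(Nτ)) = w (-1)^m N^m τ^(2m) f(τ)` with `w = ±1`. -/
structure IsNewform {N m : ℕ}
    (f : CuspForm (Gamma0 N : Subgroup (GL (Fin 2) ℝ)) ((2 * m : ℕ) : ℤ)) : Prop where
  one : coef f 1 = 1
  real : ∀ n, (coef f n).im = 0
  mul : ∀ a b : ℕ, Nat.Coprime a b → coef f (a * b) = coef f a * coef f b
  pow : ∀ p j : ℕ, p.Prime → coef f (p ^ (j + 2)) = coef f p * coef f (p ^ (j + 1)) -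
      (if p ∣ N then 0 else (p : ℂ) ^ (2 * m - 1) * coef f (p ^ j))
  fricke : ∃ w : ℝ, (w = 1 ∨ w = -1) ∧ ∀ τ τ' : ℍ, (τ' : ℂ) * ((N : ℂ) * (τ : ℂ)) = -1 →
    f τ' = (w : ℂ) * ((-1) ^ m * (N : ℂ) ^ m * (τ : ℂ) ^ (2 * m)) * f τ

/-- The families `c = (c_q)` of characters `c_q` of the groups `(ℤ/q)ˣ`.  The family with `c_q = 1`
except for the primes `q` of a finite set stands for the Dirichlet character `χ_c = ∏ c_q` of
squarefree conductor; this is an isomorphism of groups. -/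
abbrev Fam : Type := (q : ℕ) → (ZMod q)ˣ →* ℂˣ

open Classical in
/-- The set of the `q` with `c_q ≠ 1` (if it is finite). -/
noncomputable def supp (c : Fam) : Finset ℕ :=
  if h : {q | c q ≠ 1}.Finite then h.toFinset else ∅

/-- The conductor of `χ_c`. -/
noncomputable def conductor (c : Fam) : ℕ := ∏ q ∈ supp c, q

/-- The value `χ_c(n)`. -/
noncomputable def value (c : Fam) (n : ℕ) : ℂ :=
  ∏ q ∈ supp c, if h : n.Coprime q then (c q (ZMod.unitOfCoprime n h) : ℂ) else 0

/-- The value `χ_c(-1)`. -/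
noncomputable def parity (c : Fam) : ℂ := ∏ q ∈ supp c, ((c q (-1) : ℂˣ) : ℂ)

/-- `χ_c` is a Dirichlet character, of squarefree conductor prime to all the levels `N_i`. -/
structure IsChar {r : ℕ} (N : Fin r → ℕ) (c : Fam) : Prop where
  finite : {q | c q ≠ 1}.Finite
  prime : ∀ q, c q ≠ 1 → q.Prime ∧ ∀ i, ¬ q ∣ N i

/-- `L(f ⊗ χ_c, m) ≠ 0`: there is an entire function which is `∑ χ_c(n) c(n) n^(-s)` for
`Re s > m + 1`, and it is not zero at `m`. -/
def CentralNonzero {N m : ℕ} (f : CuspForm (Gamma0 N : Subgroup (GL (Fin 2) ℝ)) ((2 * m : ℕ) : ℤ))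
    (c : Fam) : Prop :=
  ∃ L : ℂ → ℂ, Differentiable ℂ L ∧ (∀ s : ℂ, (m : ℝ) + 1 < s.re →
    HasSum (fun n : ℕ => value c n * coef f n * (n : ℂ) ^ (-s)) (L s)) ∧ L m ≠ 0

/-- `l` is good for the forms `f_i`: it is a prime, and there is a prime ideal `λ` of the ring of all
algebraic integers, with `l ∈ λ`, such that for every `D > 0` there are infinitely many primes
`q ≡ 1 mod D` such that no `c_i(q) - 2` is in `λ`. -/
def Good {r : ℕ} {N m : Fin r → ℕ}
    (f : (i : Fin r) → CuspForm (Gamma0 (N i) : Subgroup (GL (Fin 2) ℝ)) ((2 * m i : ℕ) : ℤ))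
    (l : ℕ) : Prop :=
  l.Prime ∧ ∃ lam : Ideal (integralClosure ℤ ℂ), lam.IsPrime ∧ (l : integralClosure ℤ ℂ) ∈ lam ∧
    ∀ D : ℕ, 0 < D → {q : ℕ | q.Prime ∧ q ≡ 1 [MOD D] ∧
      ∀ i, ∀ x ∈ lam, (x : ℂ) ≠ coef (f i) q - 2}.Infinite

/-- The elements of `Gal(ℚ(ζ_M)/ℚ) = (ℤ/M)ˣ` that are trivial on the field of the group `H` of
characters: those at which all the characters in `H` of conductor dividing `M` have the value `1`. -/
def Fixing (H : Subgroup Fam) (M : ℕ) : Set (ZMod M)ˣ :=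
  {u | ∀ c ∈ H, conductor c ∣ M → value c (u : ZMod M).val = 1}

open Classical in
/-- The Frobenius elements at `p` in `(ℤ/M)ˣ`, `M` squarefree: the `u` that are congruent to `p` modulo
the prime divisors `q ≠ p` of `M`.  They form a coset of the inertia group at `p`. -/
noncomputable def frobenii (M : ℕ) [NeZero M] (p : ℕ) : Finset (ZMod M)ˣ :=
  Finset.univ.filter fun u => ∀ q : ℕ, q.Prime → q ∣ M → q ≠ p → (u : ZMod M).val ≡ p [MOD q]

section motive

variable {M : ℕ} [NeZero M] {g : ℕ} (ρ : (ZMod M)ˣ →* GL (Fin g) ℤ)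

/-- The mean value of the matrices `ρ(u)ᵀ` over the Frobenius elements `u` at `p`: the action of the
Frobenius automorphism on the invariants of the inertia group at `p` of the Artin motive `N`, extended
by zero (the representation `ρ` of a finite group on `ℚ^g` is self-dual, so that one may use the
arithmetic or the geometric Frobenius automorphism, and `ρ` or its transpose). -/
noncomputable def frob (p : ℕ) : Matrix (Fin g) (Fin g) ℂ :=
  ((frobenii M p).card : ℂ)⁻¹ • ∑ u ∈ frobenii M p,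
    ((ρ u : Matrix (Fin g) (Fin g) ℤ).transpose).map (Int.cast : ℤ → ℂ)

/-- The polynomial `P_p(T)` of the motive `M(f)(m) ⊗ N` at a prime `p`:
`det (1 - (c(p) / p^m) T Φ + (1 / p) T² Φ²)` with `Φ = frob ρ p`, without the last term if `p` divides the
level (for every `p` the inertia group acts trivially on one of the two factors `M(f)` and `N`). -/
noncomputable def P {N m : ℕ} (f : CuspForm (Gamma0 N : Subgroup (GL (Fin 2) ℝ)) ((2 * m : ℕ) : ℤ))
    (p : ℕ) (T : ℂ) : ℂ :=
  (1 - (coef f p / p ^ m * T) • frob ρ p + ((if p ∣ N then 0 else (1 / p : ℂ)) * T ^ 2) •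
    (frob ρ p) ^ 2).det

/-- There is a symmetric positive definite form on `ℤ^g` that is invariant under `ρ`; with the
alternating form of `M(f)(m)` it gives a polarization of `M(f)(m) ⊗ N`. -/
def Polarized : Prop := ∃ B : Matrix (Fin g) (Fin g) ℤ, B.transpose = B ∧
  (∀ x : Fin g → ℤ, x ≠ 0 → 0 < dotProduct x (B.mulVec x)) ∧
    ∀ u, (ρ u : Matrix (Fin g) (Fin g) ℤ).transpose * B * (ρ u : Matrix (Fin g) (Fin g) ℤ) = B

/-- The motive `M = M(f)(m) ⊗ N` is polarized and `L(s, M) = ∏ P_p(p^(-s))⁻¹` (the product over all the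
primes, convergent for `Re s > 1`) extends to an entire function, of order `0` at `s = 0`. -/
structure OrderZero {N m : ℕ}
    (f : CuspForm (Gamma0 N : Subgroup (GL (Fin 2) ℝ)) ((2 * m : ℕ) : ℤ)) : Prop where
  form : Polarized ρ
  order : ∃ L : ℂ → ℂ, Differentiable ℂ L ∧
    (∀ s : ℂ, 1 < s.re → HasProd (fun p : Nat.Primes =>
      (P ρ f p (((p : ℕ) : ℂ) ^ (-s)))⁻¹) (L s)) ∧
    analyticOrderAt L 0 = 0

end motive

/-- `OrderZero` for all the motives `M(f_i)(m_i) ⊗ N`, where `N` is any Artin motive over `ℚ` that is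
trivialized by a finite extension of `ℚ` in the field of `H` (every such extension is contained in
`ℚ(ζ_M)` for a squarefree `M` prime to the `N_i`, and `ρ` is the action of `Gal(ℚ(ζ_M)/ℚ) = (ℤ/M)ˣ` on a
lattice `ℤ^g`, trivial on the automorphisms that are trivial on the field of `H`). -/
def AllArtinMotives {r : ℕ} {N m : Fin r → ℕ}
    (f : (i : Fin r) → CuspForm (Gamma0 (N i) : Subgroup (GL (Fin 2) ℝ)) ((2 * m i : ℕ) : ℤ))
    (H : Subgroup Fam) : Prop :=
  ∀ (M : ℕ) [NeZero M], Squarefree M → (∀ q : ℕ, q.Prime → q ∣ M → ∀ i, ¬ q ∣ N i) →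
    ∀ (g : ℕ) (ρ : (ZMod M)ˣ →* GL (Fin g) ℤ), (∀ u ∈ Fixing H M, ρ u = 1) → ∀ i,
      OrderZero ρ (f i)

/-! ### Proof -/

theorem polarized {m : ℕ} [NeZero m] {g : ℕ} (ρ : (ZMod m)ˣ →* GL (Fin g) ℤ) : Polarized ρ := by
  refine ⟨∑ σ : (ZMod m)ˣ,
    (ρ σ : Matrix (Fin g) (Fin g) ℤ).transpose * (ρ σ : Matrix (Fin g) (Fin g) ℤ), ?_, ?_, ?_⟩
  · rw [Matrix.transpose_sum]
    refine Finset.sum_congr rfl fun σ _ => ?_
    rw [Matrix.transpose_mul, Matrix.transpose_transpose]
  · intro x hx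
    have h1 : ∀ A : Matrix (Fin g) (Fin g) ℤ, dotProduct x ((A.transpose * A).mulVec x) =
        dotProduct (A.mulVec x) (A.mulVec x) := by
      intro A
      rw [← Matrix.mulVec_mulVec, Matrix.dotProduct_mulVec, Matrix.vecMul_transpose]
    rw [Matrix.sum_mulVec, dotProduct_sum]
    refine Finset.sum_pos' (fun σ _ => ?_) ⟨1, Finset.mem_univ _, ?_⟩
    · rw [h1]
      exact Finset.sum_nonneg fun i _ => mul_self_nonneg _
    · rw [h1, map_one, Units.val_one, Matrix.one_mulVec]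
      obtain ⟨i, hi⟩ : ∃ i, x i ≠ 0 := Function.ne_iff.1 hx
      refine Finset.sum_pos' (fun i _ => mul_self_nonneg _) ⟨i, Finset.mem_univ _, ?_⟩
      exact mul_self_pos.2 hi
  · intro τ
    rw [Finset.mul_sum, Finset.sum_mul]
    refine Fintype.sum_equiv (Equiv.mulRight τ) _ _ fun σ => ?_
    rw [Equiv.coe_mulRight, map_mul, Units.val_mul, Matrix.transpose_mul]
    simp only [Matrix.mul_assoc]

section lemmas
variable {N : ℕ} [NeZero N] {m : ℕ}
  {f : CuspForm (Gamma0 N : Subgroup (GL (Fin 2) ℝ)) ((2 * m : ℕ) : ℤ)}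

theorem isNewf (hm : 1 ≤ m) (hf : IsNewform f) :
    ∃ ε : ℝ, W388.IsNewf N ((2 * m : ℕ) : ℤ) f ε := by
  obtain ⟨w, hw, hfr⟩ := hf.fricke
  refine ⟨w, hf.one, hf.real, hf.mul, fun p j hp => ?_, hw, fun τ τ' h => ?_⟩
  · have h1 := hf.pow p j hp
    have h2 : ((((2 * m : ℕ) : ℤ)) - 1) = ((2 * m - 1 : ℕ) : ℤ) := by
      rw [Nat.cast_sub (by omega), Nat.cast_one]
    rw [h2, zpow_natCast]
    exact h1
  · rw [hfr τ τ' h, zpow_natCast]
    have hN : (0 : ℝ) ≤ N := Nat.cast_nonneg N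
    have h6 : (((Real.sqrt N : ℝ) : ℂ) * τ / Complex.I) ^ (2 * m) =
        (-1) ^ m * N ^ m * (τ : ℂ) ^ (2 * m) := by
      have hss : ((Real.sqrt N : ℝ) : ℂ) ^ 2 = (N : ℂ) := by
        rw [← Complex.ofReal_pow, Real.sq_sqrt hN]; simp
      rw [div_pow, mul_pow, pow_mul, pow_mul Complex.I, Complex.I_sq, hss]
      have h7 : ((-1 : ℂ) ^ m) * (-1) ^ m = 1 := by
        rw [← mul_pow]
        norm_num
      have h8 : ((-1 : ℂ) ^ m) ≠ 0 := pow_ne_zero _ (by norm_num)
      rw [div_eq_iff h8]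
      linear_combination (-((N : ℂ) ^ m * (τ : ℂ) ^ (2 * m))) * h7
    rw [h6]

theorem hr (hf : IsNewform f) : Pool.Agent.K4H13.HW.HR N m (Pool.Agent.K4H15.GM.co f) :=
  ⟨hf.one, hf.mul, hf.pow⟩

/-- the hypothesis on the finite group -/
theorem bt_ne (hm : 1 ≤ m) (hf : IsNewform f) {c : Fam} (hfin : {q | c q ≠ 1}.Finite)
    (hp : ∀ q, c q ≠ 1 → q.Prime ∧ ¬ q ∣ N) (hc : CentralNonzero f c) :
    Pool.Agent.Y18.LP.bt (Pool.Agent.K4H13.HW.sy (Pool.Agent.K4H15.GM.co f) N m) (c⁻¹ : Fam) ≠ 0 := by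
  obtain ⟨ε, hε⟩ := isNewf hm hf
  obtain ⟨G, h1, -, h2, h3⟩ := Pool.Agent.K4H13.HW.twC hm hε (hr hf) hfin
    fun q hq => hp q ((Pool.Agent.Y18.LP.mem_sp hfin q).1 hq)
  obtain ⟨L, h4, h5, h6⟩ := hc
  have h7 : G = L := Pool.Agent.K4H15.GM.entire_eq' h1 h4 ((m : ℝ) + 1)
    fun s hs => (h2 s hs).unique (h5 s hs)
  rw [h3, h7]
  exact h6

/-- the conclusion for one form -/
theorem order (hm : 1 ≤ m) (hf : IsNewform f) {H : Subgroup Fam}
    (hfin : ∀ c ∈ H, {q | c q ≠ 1}.Finite) (hp : ∀ c ∈ H, ∀ q, c q ≠ 1 → q.Prime)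
    (hH : ∀ c ∈ H, Pool.Agent.Y18.LP.bt
      (Pool.Agent.K4H13.HW.sy (Pool.Agent.K4H15.GM.co f) N m) c ≠ 0)
    {M : ℕ} [NeZero M] (hsq : Squarefree M) (hM : ∀ q : ℕ, q.Prime → q ∣ M → ¬ q ∣ N)
    {g : ℕ} (ρ : (ZMod M)ˣ →* GL (Fin g) ℤ) (hρ : ∀ u ∈ Fixing H M, ρ u = 1) :
    OrderZero ρ f := by
  obtain ⟨ε, hε⟩ := isNewf hm hf
  have hU : ∀ u : (ZMod M)ˣ, u ∈ Fixing H M ↔ u ∈ Pool.Agent.R425.T.UU0 H M := fun u =>
    Pool.Agent.R425.T.ker_iff hfin hp hsq u
  have hρ' : ∀ u ∈ Pool.Agent.R425.T.UU0 H M, ρ u = 1 := fun u hu => hρ u ((hU u).2 hu)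
  set T : (ZMod M)ˣ → Matrix (Fin g) (Fin g) ℂ := fun u =>
    ((ρ u : Matrix (Fin g) (Fin g) ℤ).transpose).map (Int.cast : ℤ → ℂ) with hT
  have hT1 : T 1 = 1 := by
    rw [hT]
    show ((ρ 1 : Matrix (Fin g) (Fin g) ℤ).transpose).map (Int.cast : ℤ → ℂ) = 1
    rw [map_one, Units.val_one, Matrix.transpose_one,
      Matrix.map_one (Int.cast : ℤ → ℂ) Int.cast_zero Int.cast_one]
  have hT2 : ∀ u v, T (u * v) = T u * T v := by
    intro u v
    show ((ρ (u * v) : Matrix (Fin g) (Fin g) ℤ).transpose).map (Int.cast : ℤ → ℂ) =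
      ((ρ u : Matrix (Fin g) (Fin g) ℤ).transpose).map (Int.cast : ℤ → ℂ) *
        ((ρ v : Matrix (Fin g) (Fin g) ℤ).transpose).map (Int.cast : ℤ → ℂ)
    rw [mul_comm u v, map_mul, Units.val_mul, Matrix.transpose_mul]
    exact Matrix.map_mul (f := Int.castRingHom ℂ)
  have hT3 : ∀ u ∈ Pool.Agent.R425.T.UU0 H M, T u = 1 := by
    intro u hu
    have h1 : T u = T 1 := by
      show ((ρ u : Matrix (Fin g) (Fin g) ℤ).transpose).map (Int.cast : ℤ → ℂ) =
        ((ρ 1 : Matrix (Fin g) (Fin g) ℤ).transpose).map (Int.cast : ℤ → ℂ)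
      rw [hρ' u hu, map_one]
    rw [h1, hT1]
  obtain ⟨G, hG1, hG2, hG3⟩ := Pool.Agent.K4H13.HW.eqvK hm hε (hr hf) H M hsq hM hH T hT1 hT2 hT3
  have hL : Differentiable ℂ (fun s : ℂ => G (s + m)) := hG1.comp (by fun_prop)
  refine ⟨polarized ρ, ⟨fun s => G (s + m), hL, fun s hs => ?_, ?_⟩⟩
  · have h6 : ((m : ℝ) + 1 : ℝ) < (s + m).re := by
      rw [Complex.add_re, Complex.natCast_re]
      linarith
    have h5 : (fun p : Nat.Primes => (P ρ f p (((p : ℕ) : ℂ) ^ (-s)))⁻¹) =
        fun p : Nat.Primes => (Pool.Agent.K4H13.HW.PK T N m (Pool.Agent.K4H15.GM.co f) p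
          (((p : ℕ) : ℂ) ^ (-(s + m))))⁻¹ := by
      funext p
      have hp0 : ((p : ℕ) : ℂ) ≠ 0 := by exact_mod_cast p.2.ne_zero
      have h1 : ((p : ℕ) : ℂ) ^ (-(s + m)) = (((p : ℕ) : ℂ) ^ m)⁻¹ * ((p : ℕ) : ℂ) ^ (-s) := by
        rw [neg_add, Complex.cpow_add _ _ hp0, Complex.cpow_neg _ (m : ℂ), Complex.cpow_natCast,
          mul_comm]
      have h2 : P ρ f p (((p : ℕ) : ℂ) ^ (-s)) = (1 - (coef f p / ((p : ℕ) : ℂ) ^ m *
          ((p : ℕ) : ℂ) ^ (-s)) • Pool.Agent.R425.T.fav T p + ((if (p : ℕ) ∣ N then 0 else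
          (1 / ((p : ℕ) : ℂ))) * (((p : ℕ) : ℂ) ^ (-s)) ^ 2) •
            (Pool.Agent.R425.T.fav T p) ^ 2).det := rfl
      rw [h2, Pool.Agent.K4H13.HW.PK, h1]
      congr 4
      · congr 1
        show coef f p / ((p : ℕ) : ℂ) ^ m * ((p : ℕ) : ℂ) ^ (-s) =
          coef f p * ((((p : ℕ) : ℂ) ^ m)⁻¹ * ((p : ℕ) : ℂ) ^ (-s))
        ring
      · split_ifs with h
        · simp
        · have h7 : ((p : ℕ) : ℂ) ^ (2 * m - 1) * ((((p : ℕ) : ℂ) ^ m)⁻¹) ^ 2 =
              1 / ((p : ℕ) : ℂ) := by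
            have h8 : ((p : ℕ) : ℂ) ^ (2 * m) = ((p : ℕ) : ℂ) ^ (2 * m - 1) * ((p : ℕ) : ℂ) := by
              rw [← pow_succ]
              congr 1
              omega
            rw [inv_pow, ← pow_mul, mul_comm m 2, h8]
            have h9 : ((p : ℕ) : ℂ) ^ (2 * m - 1) ≠ 0 := pow_ne_zero _ hp0
            field_simp
          rw [← h7]
          ring
    rw [h5]
    exact hG2 (s + m) h6
  · refine (hL.analyticAt 0).analyticOrderAt_eq_zero.2 ?_
    simpa using hG3

end lemmas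

/-- **Theorem.** Let `f_1, …, f_r` be newforms of arbitrary even weights `2m_i` and levels `N_i`, and `F` a
finite group of Dirichlet characters of squarefree conductors prime to the `N_i` with
`L(f_i ⊗ ψ, m_i) ≠ 0` for all `i` and `ψ ∈ F`. Let `(l_j ^ n_j)` be any sequence of powers of good primes, and
`B` a finite set of primes. Then there is a sequence of even Dirichlet characters `c_j` of order
`l_j ^ n_j`, of pairwise coprime squarefree conductors prime to the `N_i` and to the conductors of `F`, with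
`c_j(b) = 1` for all `b ∈ B`, such that all the motives `M = M(f_i)(m_i) ⊗ N`, `N` an Artin motive over `ℚ`
trivialized by a finite extension of `ℚ` in the field of the characters of `F` and the `c_j`, are polarized, and
`L(s, M)` is entire and not zero at `s = 0`.

The form of the curve `X_0(11)`, the prime `l = 2` and the trivial group `F` satisfy the hypotheses. -/
theorem result :
    (∀ (r : ℕ) (N m : Fin r → ℕ)
      (f : (i : Fin r) → CuspForm (Gamma0 (N i) : Subgroup (GL (Fin 2) ℝ)) ((2 * m i : ℕ) : ℤ)),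
      (∀ i, N i ≠ 0) → (∀ i, 1 ≤ m i) → (∀ i, IsNewform (f i)) →
      ∀ F : Subgroup Fam, (F : Set Fam).Finite → (∀ ψ ∈ F, IsChar N ψ) →
      (∀ ψ ∈ F, ∀ i, CentralNonzero (f i) ψ) →
      ∀ l n : ℕ → ℕ, (∀ j, Good f (l j)) → ∀ B : Finset ℕ, (∀ b ∈ B, b.Prime) →
      ∃ c : ℕ → Fam, (∀ j, IsChar N (c j)) ∧ (∀ j, orderOf (c j) = l j ^ n j) ∧
        (∀ i j, i ≠ j → (conductor (c i)).Coprime (conductor (c j))) ∧
        (∀ ψ ∈ F, ∀ j, (conductor ψ).Coprime (conductor (c j))) ∧
        (∀ j, parity (c j) = 1 ∧ ∀ b ∈ B, value (c j) b = 1) ∧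
        AllArtinMotives f (F ⊔ Subgroup.closure (Set.range c))) ∧
    ∃ f : CuspForm (Gamma0 11 : Subgroup (GL (Fin 2) ℝ)) ((2 * 1 : ℕ) : ℤ),
      IsNewform f ∧ CentralNonzero f 1 ∧ Good (fun _ : Fin 1 => f) 2 := by
  refine ⟨?_, ?_⟩
  · intro r N m f hN hm hf F hFfin hFch hF0 l n hg B hB
    have hNZ : ∀ i, NeZero (N i) := fun i => ⟨hN i⟩
    choose ε hε using fun i => isNewf (hm i) (hf i)
    have hms : ∀ i, Pool.Agent.K4H13.HW.MK (N i) (m i - 1)
        (Pool.Agent.K4H13.HW.sy (Pool.Agent.K4H15.GM.co (f i)) (N i) (m i))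
        (Pool.Agent.K4H15.GM.co (f i)) := fun i =>
      Pool.Agent.K4H13.HW.mk_of (hm i) (Pool.Agent.K4H15.GM.md_of (hm i) (hε i)) (hr (hf i))
    have hSt : Pool.Agent.K4H13.HW.St N
        (fun i => Pool.Agent.K4H13.HW.sy (Pool.Agent.K4H15.GM.co (f i)) (N i) (m i)) F := by
      refine ⟨hFfin, fun c hc => ⟨(hFch c hc).1, (hFch c hc).2⟩, fun c hc i => ?_⟩
      have h1 := bt_ne (hm i) (hf i) (hFch _ (F.inv_mem hc)).1
        (fun q hq => ⟨((hFch _ (F.inv_mem hc)).2 q hq).1, ((hFch _ (F.inv_mem hc)).2 q hq).2 i⟩)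
        (hF0 _ (F.inv_mem hc) i)
      rwa [inv_inv (G := Fam)] at h1
    obtain ⟨c, h1, h2, h3, h4, h5⟩ := Pool.Agent.K4H13.HW.seq hN hms l n (fun j => (hg j).1)
      (fun j => by
        obtain ⟨-, lam, g1, g2, g3⟩ := hg j
        exact ⟨lam, g1, g2, g3⟩) B hB F hSt
    have hcm : ∀ j, c j ∈ F ⊔ Subgroup.closure (Set.range c) := fun j =>
      Subgroup.mem_sup_right (Subgroup.subset_closure ⟨j, rfl⟩)
    have hs : ∀ j, Pool.Agent.K4H13.HW.Sup N (c j) := fun j => (h5 _ (hcm j)).1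
    have key : ∀ a b : Fam, Pool.Agent.K4H13.HW.Sup N a → Pool.Agent.K4H13.HW.Sup N b →
        (∀ q, b q ≠ 1 → a q = 1) → (conductor a).Coprime (conductor b) := by
      intro a b ha hb hab
      refine Nat.Coprime.prod_left fun p hp => Nat.Coprime.prod_right fun q hq => ?_
      have hp1 := (Pool.Agent.Y18.LP.mem_sp ha.fin p).1 hp
      have hq1 := (Pool.Agent.Y18.LP.mem_sp hb.fin q).1 hq
      rw [Nat.coprime_primes (ha.pr p hp1).1 (hb.pr q hq1).1]
      rintro rfl
      exact hp1 (hab _ hq1)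
    refine ⟨c, fun j => ⟨(hs j).fin, (hs j).pr⟩, fun j => ?_, fun i j hij => ?_, fun ψ hψ j => ?_,
      fun j => ⟨(h4 j).1, (h4 j).2⟩, ?_⟩
    · exact Nat.dvd_antisymm (orderOf_dvd_of_pow_eq_one (G := Fam) (h1 j).1)
        ((h1 j).2 _ (pow_orderOf_eq_one (G := Fam) _))
    · exact key _ _ (hs i) (hs j) fun q hq => by
        by_contra hcon
        exact hq (h2 i j hij q hcon)
    · exact key _ _ (hSt.sup ψ hψ) (hs j) fun q hq => h3 ψ hψ j q hq
    · intro M _ hsq hM g ρ hρ i
      exact order (hm i) (hf i) (fun d hd => (h5 d hd).1.fin) (fun d hd q hq =>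
        ((h5 d hd).1.pr q hq).1) (fun d hd => (h5 d hd).2 i) hsq (fun q hq hqM => hM q hq hqM i)
        ρ hρ
  · have hE := Pool.Agent.Y18.BSD.Eleven.isFormOf
    obtain ⟨w, -, hFr⟩ := hE.newf
    have hbv : Pool.Agent.Y18.BSD.bv Pool.Agent.W97.TW.f11 0 ≠ 0 :=
      Pool.Agent.Y18.LP.bv0_ne (by norm_num) hE Pool.Agent.Y18.NF.rankZero11
    have hsy := Pool.Agent.K4H13.HW.sy_one hFr
    let f : CuspForm (Gamma0 11 : Subgroup (GL (Fin 2) ℝ)) ((2 * 1 : ℕ) : ℤ) :=
      Pool.Agent.W97.TW.f11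
    have hf : IsNewform f := by
      refine ⟨hE.one, hE.real, hE.mul, fun p j hp => ?_, ?_⟩
      · have h1 := hE.pow p j hp
        rw [show 2 * 1 - 1 = 1 from rfl, pow_one]
        exact h1
      · obtain ⟨w, hw, h1⟩ := hE.fricke
        refine ⟨w, hw, fun τ τ' h => ?_⟩
        have h2 := h1 τ τ' h
        show Pool.Agent.W97.TW.f11 τ' = _ * Pool.Agent.W97.TW.f11 τ
        rw [h2]
        ring
    refine ⟨f, hf, ?_, Nat.prime_two, ?_⟩
    · obtain ⟨ε, hε⟩ := isNewf le_rfl hf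
      have h1 : {q : ℕ | (1 : Fam) q ≠ 1}.Finite := (Pool.Agent.K4H13.HW.Sup.one (fun _ : Fin 1 => 11)).fin
      obtain ⟨G, g1, -, g2, g3⟩ := Pool.Agent.K4H13.HW.twC le_rfl hε (hr hf) h1
        fun q hq => absurd rfl ((Pool.Agent.Y18.LP.mem_sp h1 q).1 hq)
      refine ⟨G, g1, g2, g3.1 ?_⟩
      rw [inv_one (G := Fam), Pool.Agent.Y18.LP.bt_one]
      show Pool.Agent.K4H13.HW.sy (Pool.Agent.Y18.BSD.co Pool.Agent.W97.TW.f11) 11 1 0 ≠ 0
      rw [hsy]
      exact neg_ne_zero.2 (mul_ne_zero (inv_ne_zero Pool.Agent.K4H15.GM.two_pi_ne) hbv)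
    · obtain ⟨g, hg1, hg2⟩ := Pool.Agent.K4H13.HW.exists_g (a := -13392) (b := -1080432)
        (fun X h => by
          have h1 : ((X ^ 3 + -13392 * X + -1080432 : ℤ) : ZMod 5) = 0 := by
            rw [h]
            rfl
          push_cast at h1
          generalize (X : ZMod 5) = x at h1
          revert x
          decide) (by norm_num)
      obtain ⟨lam, l1, l2, l3⟩ := Pool.Agent.K4H13.HW.goodL_two (ι := Fin 1)
        (a := fun _ => -13392) (b := fun _ => -1080432) (fun _ => by norm_num) g hg1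
        (fun _ => hg2) (c := fun _ => coef f) (fun _ q hq => (hE.points q hq).2)
      exact ⟨lam, l1, l2, l3⟩

end Pool.Agent.Results.MP_ec4e4b_nt.AllWeightsProductTowers
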