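import Pool.Agent.K4H15.BW.Gal

/-!
# Infinite nonabelian towers for the order of vanishing formula over imaginary quadratic fields

`K` is an imaginary quadratic field of class number one, `E : y² = x³ + a x + b` is an elliptic curve over
`K` without `K`-rational points of order two, not necessarily a `ℚ`-curve or a base change from `ℚ`, and `f` is
the Bianchi newform of weight two of `E`: `L(E/K, s) = L(f, s)`.  Suppose that `L(E/K, 1) ≠ 0` and that the
`2`-Selmer group of `E/K` is trivial.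

Theorem: for every `M ≥ 1` and every infinite set `Q` of admissible prime numbers there is an infinite extension
`K_∞ = K(√D : D ∈ 𝒟)` of `K`, Galois and not abelian over `ℚ`, such that the order of vanishing formula holds for
`p = 2`, with both sides zero, for all the motives `h¹(E)(1) ⊗ χ` over `K`, `χ` any character of
`Gal(K_∞/K)` (of finite order), and `E(F)` is finite for all finite extensions `F` of `K` in `K_∞`.

Here `𝒟` is a set of squarefree elements `D` of `𝓞_K`, not of `ℤ`, which is closed under multiplication modulo squares and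
under complex conjugation; so the characters of `Gal(K_∞/K)` are the quadratic characters of the `K(√D)`, `D ∈ 𝒟`,
the motive `h¹(E)(1) ⊗ χ` is `M_D = h¹(E^(D))(1)` for the twist `E^(D) : y² = x³ + a D² x + b D³`, and for every Artin
representation `ρ` of `Gal(K_∞/ℚ)` the motive `h¹(Res_{K/ℚ} E)(1) ⊗ ρ` over `ℚ` is a sum of restrictions of scalars of
such motives.  `K_∞` is unramified outside of the places above `Q`; the places dividing `M` and
`2(4a³ + 27b²)` split completely in `K_∞`.  There are infinitely many `D_j ∈ 𝒟` such that the `D_j` and their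
conjugates are independent modulo squares.

For each `D ∈ 𝒟`: `L(s, M_D) = L(E^(D)/K, s + 1)` is entire and not zero at `s = 0`, `H⁰(K, V_2 E^(D)) = 0`, the Selmer
group of Bloch and Kato `H¹_f(K, V_2 E^(D))` is zero, `E^(D)(K)` is finite of odd order and `Ш(E^(D)/K)[2^∞] = 0`.

The proof.  The group `𝒟` is found step by step.  Let `Φ` be the primitive of the harmonic differential of `f` on
the hyperbolic space.  The values of `Φ` at the cusps generate a finitely generated abelian group, and the Hecke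
operators act on it.  The twisted central value for `D` is, up to elementary factors and after division by a
product of Hecke eigenvalues which are odd, a function `β(D)` with the property that modulo the powers of
a maximal ideal `P` above `2` it is a combination of characters of the group of the `D` modulo squares; these
take values in `±1`, which is `1` modulo `P`.  If `F` is a finite group of `D` with `β ≠ 0` on `F`, stable under conjugation,
and if `g` runs over the classes of new blocks of primes then `β(x g) `, `β(x ḡ)` and `β(x g ḡ)` for the `x ∈ F`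
have to be made nonzero at once by one correction `k` of `g`; by Krull's intersection theorem there is a finite set of corrections
which is sufficient for all `g`.  The elements `D` are products of blocks of primes `π` of `𝓞_K`
above distinct `q ∈ Q`, with product `1` modulo `8 M N(4a³ + 27b²)`.  The twist by `√D` is then
given by the product of the quadratic symbols modulo the `π`, by a reciprocity law in `𝓞_K` which is
deduced from the one of `ℤ` (the blocks are prime to their conjugates).  The Selmer groups are found by the `2`-descent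
over `K` (helper55).

`H1f 2 W` (`Pool.Agent.Y667.BKP.H1f`, by helper667) is the group of the classes of the continuous
cocycles of the absolute Galois group with values in `V_2 W = T_2 W ⊗ ℚ_2` whose restriction to the
completion at every place is in the image of the Kummer map; this is the condition of Bloch and Kato.
An element of `V_2 W` is described by a sequence of points (`IsV 2 W`).
-/

set_option autoImplicit false

open NumberField IsDedekindDomain Matrix
open Pool.Agent.TH841.SH.D (Gal act)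
open Pool.Agent.Y667.BKP (H1f PSeq IsV)
open scoped TensorProduct

namespace Pool.Agent.Results.MP_ec4e4b_nt.BianchiTowers

/-- `K` is an imaginary quadratic field, `σ` is one of its two embeddings in `ℂ`, and `δ` generates the
different of `K`: an `x ∈ K` is in `𝓞` if and only if `Tr(x y / δ) ∈ ℤ` for all `y ∈ 𝓞`. -/
structure IsFieldData (K : Type) [Field K] [NumberField K] (σ : K →+* ℂ) (δ : K) : Prop where
  quadratic : Module.finrank ℚ K = 2
  imaginary : ∃ x, (starRingEnd ℂ) (σ x) ≠ σ x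
  different : ∀ x : K, (∃ a : 𝓞 K, (a : K) = x) ↔
    ∀ y : 𝓞 K, ∃ m : ℤ, Algebra.trace ℚ K (x * y / δ) = m

/-- `h(y) = ∫_0^∞ exp(-1/v - y v) dv = 2 y^(-1/2) K₁(2 √y)`, with the Bessel function `K₁`. -/
noncomputable def bessel (y : ℝ) : ℝ := ∫ v in Set.Ioi (0 : ℝ), Real.exp (-(1 / v) - y * v)

/-- The additive character `e(z) = exp(2πi (z/δ + conj (z/δ)))` of `ℂ`, trivial on `𝓞`. -/
noncomputable def addChar (δ z : ℂ) : ℂ :=
  Complex.exp (2 * Real.pi * Complex.I * (z / δ + (starRingEnd ℂ) (z / δ)))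

/-- The denominator `|c z + d|² + |c|² t²` of the action of the matrix `(a, b; c, d)` on the hyperbolic
space `{(z, t) : z ∈ ℂ, t > 0}`. -/
noncomputable def den (c d z : ℂ) (t : ℝ) : ℝ := ‖c * z + d‖ ^ 2 + ‖c‖ ^ 2 * t ^ 2

/-- The first coordinate `((a z + b) conj (c z + d) + a conj(c) t²) / (|c z + d|² + |c|² t²)` of the image
of `(z, t)` under the matrix `(a, b; c, d)`. -/
noncomputable def actZ (a b c d z : ℂ) (t : ℝ) : ℂ :=
  ((a * z + b) * (starRingEnd ℂ) (c * z + d) + a * (starRingEnd ℂ) c * (t : ℂ) ^ 2) /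
    (den c d z t : ℂ)

/-- The second coordinate, for a matrix of determinant one; in general it is `|ad - bc|` times this. -/
noncomputable def actT (c d z : ℂ) (t : ℝ) : ℝ := t / den c d z t

section field
variable {K : Type} [Field K] [NumberField K]

/-- The function `Φ(z, t) = ∑_{x ∈ 𝓞} c((x)) t² h(N(x) (2πt/|δ|)²) e(x z)
  = (|δ|/π) ∑_{x ≠ 0} (c((x))/|x|) t K₁(4π|x|t/|δ|) e(x z)` on the hyperbolic space, with the coefficients `c`.
Up to a constant factor it is the primitive, zero at the cusp `∞`, of the harmonic differential of the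
form of weight two with the Fourier coefficients `c`: its derivative by `t` is
`-4 ∑_{x ≠ 0} c((x)) t K₀(4π|x|t/|δ|) e(x z)`. -/
noncomputable def primitive (σ : K →+* ℂ) (δ : K) (c : Ideal (𝓞 K) → ℂ) (z : ℂ) (t : ℝ) : ℂ :=
  ∑' x : 𝓞 K, c (Ideal.span {x}) * ((t ^ 2 * bessel (Ideal.absNorm (Ideal.span {x}) *
    (2 * Real.pi * t / ‖σ δ‖) ^ 2) : ℝ) : ℂ) * addChar (σ δ) (σ x * z)

/-- The numbers `c(I)` are the Hecke eigenvalues of a Bianchi newform `f` of weight two, level `(n)` and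
trivial character over `K`: they satisfy `c(𝓞) = 1`, the (trivial) bound `c(I) = O(N(I))` and the Hecke
relations `c(v I) = c(v) c(I)` for `v ∤ I`, `c(v² I) = c(v) c(v I) - N(v) c(I)` for the primes `v ∤ n`, and
`c(v I) = c(v) c(I)` for `v ∣ n`; the differential `dΦ` of the function `Φ` with the coefficients `c` is
invariant under `Γ₀(n)`, that is, `Φ(γ P) - Φ(P)` is a constant for every `γ ∈ Γ₀(n)`; and `dΦ` is an
eigenform, with the eigenvalue `±1`, of the Fricke involution `W = (0, -1; n, 0)`. -/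
structure IsNewform (σ : K →+* ℂ) (δ : K) (n : 𝓞 K) (c : Ideal (𝓞 K) → ℂ) : Prop where
  level : n ≠ 0
  zero : c ⊥ = 0
  one : c ⊤ = 1
  bound : ∃ C : ℝ, ∀ I, ‖c I‖ ≤ C * Ideal.absNorm I
  good : ∀ v : HeightOneSpectrum (𝓞 K), n ∉ v.asIdeal → ∀ I,
    (¬ v.asIdeal ∣ I → c (v.asIdeal * I) = c v.asIdeal * c I) ∧
    c (v.asIdeal * (v.asIdeal * I)) = c v.asIdeal * c (v.asIdeal * I) -
      Ideal.absNorm v.asIdeal * c I
  bad : ∀ v : HeightOneSpectrum (𝓞 K), n ∈ v.asIdeal → ∀ I,
    c (v.asIdeal * I) = c v.asIdeal * c I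
  invariant : ∃ κ : SpecialLinearGroup (Fin 2) (𝓞 K) → ℂ,
    ∀ γ : SpecialLinearGroup (Fin 2) (𝓞 K), n ∣ γ.1 1 0 → ∀ (z : ℂ) (t : ℝ), 0 < t →
      primitive σ δ c (actZ (σ (γ.1 0 0)) (σ (γ.1 0 1)) (σ (γ.1 1 0)) (σ (γ.1 1 1)) z t)
        (actT (σ (γ.1 1 0)) (σ (γ.1 1 1)) z t) = primitive σ δ c z t + κ γ
  fricke : ∃ w κ : ℂ, w * w = 1 ∧ ∀ (z : ℂ) (t : ℝ), 0 < t →
    primitive σ δ c (actZ 0 (-1) (σ n) 0 z t) (‖σ n‖ * actT (σ n) 0 z t) =
      -w * primitive σ δ c z t + κ

/-- The number of the affine points of `y² = x³ + a x + b` over the residue field of `v`. -/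
noncomputable def points (a b : 𝓞 K) (v : HeightOneSpectrum (𝓞 K)) : ℕ :=
  Nat.card {x : (𝓞 K ⧸ v.asIdeal) × (𝓞 K ⧸ v.asIdeal) //
    x.2 ^ 2 = x.1 ^ 3 + (Ideal.Quotient.mk v.asIdeal a) * x.1 + (Ideal.Quotient.mk v.asIdeal b)}

/-- `f` is the newform of `E : y² = x³ + a x + b`: for `v ∤ 2(4a³ + 27b²)` (so that `E` has good reduction at `v`)
the level is prime to `v` and `c(v) = N(v) + 1 - #E(𝓞/v)`. -/
def IsNewformOf (a b n : 𝓞 K) (c : Ideal (𝓞 K) → ℂ) : Prop :=
  ∀ v : HeightOneSpectrum (𝓞 K), 2 * (4 * a ^ 3 + 27 * b ^ 2) ∉ v.asIdeal →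
    n ∉ v.asIdeal ∧ c v.asIdeal = (Ideal.absNorm v.asIdeal : ℂ) - points a b v

open Classical in
/-- The Euler factor at `v` of `L(E^(D)/K, s)`, for `D ∈ 𝓞_K` which is a square in `K_v` at the `v ∣ 2(4a³ + 27b²)` and
not divisible by the square of a `v ∤ 2(4a³ + 27b²)`.  At `v ∣ 2(4a³ + 27b²)`, where `E^(D)` is isomorphic to `E` over
`K_v`, it is the Euler factor of `L(E/K, s) = L(f, s)`; at the other `v` it is `1` if `v ∣ D` (additive
reduction), and `(1 - a_v N(v)^(-s) + N(v)^(1-2s))⁻¹` with `a_v = N(v) + 1 - #E^(D)(𝓞/v)` if `v ∤ D` (good reduction). -/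
noncomputable def factor (a b n : 𝓞 K) (c : Ideal (𝓞 K) → ℂ) (D : 𝓞 K) (s : ℂ)
    (v : HeightOneSpectrum (𝓞 K)) : ℂ :=
  if 2 * (4 * a ^ 3 + 27 * b ^ 2) ∈ v.asIdeal then
    (1 - c v.asIdeal * (Ideal.absNorm v.asIdeal : ℂ) ^ (-s) +
      (if n ∈ v.asIdeal then 0 else (Ideal.absNorm v.asIdeal : ℂ) ^ (1 - 2 * s)))⁻¹
  else if D ∈ v.asIdeal then 1
  else (1 - ((Ideal.absNorm v.asIdeal : ℂ) - points (a * D ^ 2) (b * D ^ 3) v) *
    (Ideal.absNorm v.asIdeal : ℂ) ^ (-s) + (Ideal.absNorm v.asIdeal : ℂ) ^ (1 - 2 * s))⁻¹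

/-- `L(E^(D)/K, s)` is entire and `L(E^(D)/K, 1) ≠ 0`. -/
def Nonvanishing (a b n : 𝓞 K) (c : Ideal (𝓞 K) → ℂ) (D : 𝓞 K) : Prop :=
  ∃ G : ℂ → ℂ, Differentiable ℂ G ∧
    (∀ s : ℂ, 2 < s.re → HasProd (factor a b n c D s) (G s)) ∧ G 1 ≠ 0

/-- The curve `E^(D) : y² = x³ + a D² x + b D³` over `K`. -/
def curve (a b : 𝓞 K) (D : 𝓞 K) : WeierstrassCurve K :=
  ⟨0, 0, 0, (a : K) * (D : K) ^ 2, (b : K) * (D : K) ^ 3⟩

section selmer
variable {L : Type} [Field L] [NumberField L] [Algebra K L]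

/-- `L = K(θ)` is the cubic field of `E`: `θ³ + a θ + b = 0`, and every element of `L` is `u + v θ + w θ²` for
unique `u, v, w ∈ K`.  So `x³ + a x + b` is irreducible over `K`, that is, `E(K)[2] = 0`. -/
structure IsCubicField (a b : 𝓞 K) (θ : L) : Prop where
  root : θ ^ 3 + algebraMap K L a * θ + algebraMap K L b = 0
  basis : ∀ β : L, ∃! t : K × K × K,
    β = algebraMap K L t.1 + algebraMap K L t.2.1 * θ + algebraMap K L t.2.2 * θ ^ 2

/-- The class of `α` in `(K_v ⊗ L)^×` modulo squares is the image of a point of `E(K_v)` under the Kummer map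
`(x, y) ↦ x - θ`.  (Every class of `E(K_v)` modulo `2 E(K_v)` contains a point with `y ≠ 0` or is zero.) -/
def LocalCondition (a b : 𝓞 K) (θ : L) (v : HeightOneSpectrum (𝓞 K)) (α : L) : Prop :=
  IsSquare ((1 : v.adicCompletion K) ⊗ₜ[K] α) ∨
  ∃ x y : v.adicCompletion K, y ≠ 0 ∧
    y ^ 2 = x ^ 3 + algebraMap K (v.adicCompletion K) a * x + algebraMap K (v.adicCompletion K) b ∧
    IsSquare (((1 : v.adicCompletion K) ⊗ₜ[K] α) * (x ⊗ₜ[K] (1 : L) - 1 ⊗ₜ[K] θ))

/-- The `2`-Selmer group of `E/K` is trivial.  As `E(K)[2] = 0` and `K` has no real places, it is the group of the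
classes of `α ∈ L^×` modulo squares such that the norm of `α` is a square, `w(α)` is even for all places
`w ∤ 2(4a³ + 27b²)` of `L`, and `α` satisfies the local conditions at the places `v ∣ 2(4a³ + 27b²)` of `K`. -/
def TrivialSelmer (a b : 𝓞 K) (θ : L) : Prop :=
  ∀ α : L, α ≠ 0 → IsSquare (Algebra.norm K α) →
    (∀ w : HeightOneSpectrum (𝓞 L), algebraMap (𝓞 K) (𝓞 L) (2 * (4 * a ^ 3 + 27 * b ^ 2)) ∉
      w.asIdeal → IsSquare (w.valuation L α)) →
    (∀ v : HeightOneSpectrum (𝓞 K), 2 * (4 * a ^ 3 + 27 * b ^ 2) ∈ v.asIdeal →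
      LocalCondition a b θ v α) → IsSquare α

end selmer

/-- The admissible prime numbers `q`: `q` is odd and splits in `K`, and the two places `v` of `K` above `q` do
not divide `2(4a³ + 27b²)` and the level, and `x³ + a x + b` has no root modulo `v`. -/
structure Admissible (a b n : 𝓞 K) (q : ℕ) : Prop where
  prime : q.Prime
  odd : q ≠ 2
  degree : ∀ v : HeightOneSpectrum (𝓞 K), (q : 𝓞 K) ∈ v.asIdeal → Ideal.absNorm v.asIdeal = q
  unramified : ∀ v : HeightOneSpectrum (𝓞 K), (q : 𝓞 K) ∈ v.asIdeal → (q : 𝓞 K) ∉ v.asIdeal ^ 2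
  good : ∀ v : HeightOneSpectrum (𝓞 K), (q : 𝓞 K) ∈ v.asIdeal →
    2 * (4 * a ^ 3 + 27 * b ^ 2) ∉ v.asIdeal ∧ n ∉ v.asIdeal ∧
      ∀ x : 𝓞 K, x ^ 3 + a * x + b ∉ v.asIdeal

/-- `H⁰(F, V_2 W) = 0`: the elements of `V_2 W` that are fixed by the Galois group are zero. -/
def NoInvariants {F : Type} [Field F] (W : WeierstrassCurve F) : Prop :=
  ∀ x : PSeq W, IsV 2 W x → (∀ (σ : Gal F) (n : ℕ), act W σ.toAlgHom (x n) = x n) → ∀ n, x n = 0

/-- The right side of the formula for `h¹(W)(1)` and `p = 2` is zero: `H⁰(F, V_2 W)` and `H¹_f(F, V_2 W)` are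
zero. -/
def SelmerZero {F : Type} [Field F] [NumberField F] (W : WeierstrassCurve F) : Prop :=
  NoInvariants W ∧ ∀ x : H1f 2 W, x = 0

/-- The order of vanishing formula for `M_D = h¹(E^(D))(1)` over `K` and `p = 2`, with both sides zero:
`L(E^(D)/K, s)` extends to an entire function that is not zero at `s = 1`, and `H⁰(K, V_2 E^(D))` and
`H¹_f(K, V_2 E^(D))` are zero. -/
def Formula (a b n : 𝓞 K) (c : Ideal (𝓞 K) → ℂ) (D : 𝓞 K) : Prop :=
  Nonvanishing a b n c D ∧ SelmerZero (curve a b D)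

/-- `D'` is the complex conjugate of `D`. -/
def IsConjugate (σ : K →+* ℂ) (D D' : 𝓞 K) : Prop := σ D' = (starRingEnd ℂ) (σ D)

/-- The set `𝒟` is a group modulo squares that is stable under complex conjugation. -/
structure IsStableGroup (σ : K →+* ℂ) (𝒟 : Set (𝓞 K)) : Prop where
  one : 1 ∈ 𝒟
  mul : ∀ D ∈ 𝒟, ∀ D' ∈ 𝒟, ∃ D'' ∈ 𝒟, ∃ g : 𝓞 K, g ≠ 0 ∧ D'' * g ^ 2 = D * D'
  conj : ∀ D ∈ 𝒟, ∃ D' ∈ 𝒟, IsConjugate σ D D'

/-- The field `K_∞ = K(√D : D ∈ 𝒟)`, in the algebraic closure of `K`. -/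
noncomputable def tower (𝒟 : Set (𝓞 K)) : IntermediateField K (AlgebraicClosure K) :=
  IntermediateField.adjoin K {x | ∃ D ∈ 𝒟, x ^ 2 = algebraMap K (AlgebraicClosure K) D}

/-- There are `D_j ∈ 𝒟`, with conjugates `D'_j`, such that all the `D_j` and `D'_j` together are independent
modulo squares: no product of the `D_j` with `j ∈ S` and the `D'_j` with `j ∈ S'` is a square in `K`, unless `S` and
`S'` are empty. -/
def InfiniteRank (σ : K →+* ℂ) (𝒟 : Set (𝓞 K)) : Prop :=
  ∃ D D' : ℕ → 𝓞 K, (∀ j, D j ∈ 𝒟 ∧ D' j ∈ 𝒟 ∧ IsConjugate σ (D j) (D' j)) ∧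
    ∀ S S' : Finset ℕ, S.Nonempty ∨ S'.Nonempty →
      ¬ IsSquare ((∏ j ∈ S, (D j : K)) * ∏ j ∈ S', (D' j : K))

/-- `D` is squarefree and composed of places above the `q ∈ Q`, `D ≡ 1` modulo `M`, and `D` is a square in `K_v` for the
places `v ∣ 2(4a³ + 27b²) M`. -/
structure LocalConditions (a b : 𝓞 K) (M : ℕ) (Q : Set ℕ) (D : 𝓞 K) : Prop where
  squarefree : Squarefree D
  congruence : (M : 𝓞 K) ∣ D - 1
  support : ∀ v : HeightOneSpectrum (𝓞 K), D ∈ v.asIdeal → ∃ q ∈ Q, (q : 𝓞 K) ∈ v.asIdeal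
  split : ∀ v : HeightOneSpectrum (𝓞 K), 2 * (4 * a ^ 3 + 27 * b ^ 2) * M ∈ v.asIdeal →
    IsSquare (algebraMap K (v.adicCompletion K) D)

/-- The formula holds for `h¹(E^(D))(1)` and `p = 2`, with both sides zero; `E^(D)(K)` is finite of odd order, and
`Ш(E^(D)/K)` has no elements of `2`-power order. -/
structure TwistRankZero (a b n : 𝓞 K) (c : Ideal (𝓞 K) → ℂ) (D : 𝓞 K) : Prop where
  formula : Formula a b n c D
  finite : Finite (curve a b D).toAffine.Point
  odd : Odd (Nat.card (curve a b D).toAffine.Point)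
  sha : ∀ (k : ℕ) (x : Pool.Agent.TH841.NF.D.Sha (curve a b D)), (2 ^ k : ℕ) • x = 0 → x = 0

/-- The extension `E` of `K` is of infinite degree over `K`, Galois over `ℚ`, and `Gal(E/ℚ)` is not abelian. -/
structure InfiniteNonabelian (K : Type) [Field K] (E : Type) [Field E] [CharZero E] [Algebra K E] :
    Prop where
  infinite : ¬ FiniteDimensional K E
  galois : IsGalois ℚ E
  nonabelian : ∃ s t : E ≃ₐ[ℚ] E, s * t ≠ t * s

/-- `E(F)` is finite for all finite extensions `F` of `K` in `K_∞`. -/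
def FiniteOverTower (a b : 𝓞 K) (𝒟 : Set (𝓞 K)) : Prop :=
  ∀ F : IntermediateField K (AlgebraicClosure K), F ≤ tower 𝒟 → FiniteDimensional K F →
    Finite ((curve a b 1).baseChange F).toAffine.Point

end field

/-- Let `K` be an imaginary quadratic field of class number one, `E : y² = x³ + a x + b` an elliptic curve over `K`
with `E(K)[2] = 0` and with the Bianchi newform `f`, and suppose that `L(E/K, 1) ≠ 0` and that the `2`-Selmer group
of `E/K` is trivial.  There are infinitely many admissible prime numbers.  Let `M ≥ 1` and let `Q` be an infinite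
set of admissible prime numbers.  There is a set `𝒟` of elements of `𝓞_K`, which is a group modulo squares and stable
under complex conjugation, with the following properties.
(1) For all `D ∈ 𝒟`, `D` is squarefree and composed of places above `q ∈ Q`, `D ≡ 1` modulo `M`, and `D` is a square in
`K_v` for all `v ∣ 2(4a³ + 27b²) M`.
(2) For all `D ∈ 𝒟` the formula holds for `h¹(E^(D))(1)`, `E^(D)(K)` is finite of odd order, and `Ш(E^(D)/K)` has no
elements of `2`-power order.
(3) `𝒟` contains infinitely many elements which are, with their conjugates, independent modulo squares.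
(4) `K_∞ = K(√D : D ∈ 𝒟)` is of infinite degree over `K`, Galois over `ℚ`, and `Gal(K_∞/ℚ)` is not abelian.
(5) `E(F)` is finite for all finite extensions `F` of `K` in `K_∞`. -/
theorem result (K : Type) [Field K] [NumberField K] [IsPrincipalIdealRing (𝓞 K)] (σ : K →+* ℂ)
    (δ : K) (hK : IsFieldData K σ δ) (a b : 𝓞 K) (hΔ : 4 * a ^ 3 + 27 * b ^ 2 ≠ 0) (n : 𝓞 K)
    (c : Ideal (𝓞 K) → ℂ) (hf : IsNewform σ δ n c) (hE : IsNewformOf a b n c)
    (hL : Nonvanishing a b n c 1) (L : Type) [Field L] [NumberField L] [Algebra K L] (θ : L)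
    (hθ : IsCubicField a b θ) (hS : TrivialSelmer a b θ) :
    {q | Admissible a b n q}.Infinite ∧
    ∀ M : ℕ, M ≠ 0 → ∀ Q : Set ℕ, Q.Infinite → (∀ q ∈ Q, Admissible a b n q) →
      ∃ 𝒟 : Set (𝓞 K), IsStableGroup σ 𝒟 ∧ (∀ D ∈ 𝒟, LocalConditions a b M Q D) ∧
        (∀ D ∈ 𝒟, TwistRankZero a b n c D) ∧ InfiniteRank σ 𝒟 ∧ InfiniteNonabelian K (tower 𝒟) ∧
        FiniteOverTower a b 𝒟 := by
  classical
  have h : K4H55.BI.IQ K σ δ := ⟨hK.quadratic, hK.imaginary, inferInstance, hK.different⟩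
  have hf' : K4H55.BI.BF σ δ n c := ⟨hf.level, hf.zero, hf.one, hf.bound, hf.good, hf.bad,
    hf.invariant, hf.fricke⟩
  have hcub : K4H55.BD.Cub K θ := by
    refine ⟨fun p q r h0 => ?_, fun β => ?_⟩
    · obtain ⟨t, ht, hu⟩ := hθ.basis 0
      have h1 := hu (p, q, r) h0.symm
      have h2 := hu (0, 0, 0) (by simp)
      have h3 := h1.trans h2.symm
      simp only [Prod.mk.injEq] at h3
      exact h3
    · obtain ⟨t, ht, -⟩ := hθ.basis β
      exact ⟨t.1, t.2.1, t.2.2, ht⟩
  have hadm : ∀ q, Admissible a b n q ↔ q ∈ K4H55.BD.QE h a b n := by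
    intro q
    constructor
    · intro hq
      exact ⟨K4H55.BD.spl_of h hq.prime hq.odd hq.degree hq.unramified, hq.good⟩
    · rintro ⟨h1, h2⟩
      exact ⟨h1.pr, h1.odd, h1.deg, fun v hv => K4H55.BD.spl_sq h h1 hv, h2⟩
  refine ⟨?_, fun M hM Q hQi hQ => ?_⟩
  · have h1 := K4H15.BW.QE_inf h hΔ hf.level (K4H55.BD.no_root hcub hθ.root)
    have h2 : {q | Admissible a b n q} = K4H55.BD.QE h a b n := Set.ext hadm
    rw [h2]
    exact h1
  obtain ⟨𝒟, h1, h2, h3, h4, D, h5, h6⟩ := K4H15.BW.main h hΔ hf' hE hL hM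
    (fun q hq => (hadm q).1 (hQ q hq)) hQi
  have hbk : ∀ D ∈ 𝒟, (Finite (curve a b D).toAffine.Point ∧
      Odd (Nat.card (curve a b D).toAffine.Point)) ∧
      (∀ (k : ℕ) (x : Pool.Agent.TH841.NF.D.Sha (curve a b D)), (2 ^ k : ℕ) • x = 0 → x = 0) ∧
      ∀ x : H1f 2 (curve a b D), x = 0 := fun D hD =>
    K4H55.BK.bk hΔ hcub hθ.root hS (h4 D hD).2.1
      (fun v hv => (h4 D hD).2.2.2.1 v (v.asIdeal.mul_mem_right _ hv))
      (fun v _ hv => ⟨((h4 D hD).2.2.2.2.1 v hv).1, ((h4 D hD).2.2.2.2.1 v hv).2.1⟩)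
  have hnsq : ∀ j, ¬ IsSquare (D j : K) := fun j => by
    have h7 := h6 {j} ∅ (Or.inl ⟨j, Finset.mem_singleton_self j⟩)
    rwa [Finset.prod_singleton, Finset.prod_empty, mul_one] at h7
  refine ⟨𝒟, ⟨h1, h3, fun D hD => ⟨_, h2 D hD, K4H55.BD.sg_tau h D⟩⟩, fun D hD => ⟨(h4 D hD).1,
    (h4 D hD).2.2.1, fun v hv => ((h4 D hD).2.2.2.2.1 v hv).2.2, (h4 D hD).2.2.2.1⟩,
    fun D hD => ⟨⟨(h4 D hD).2.2.2.2.2,
      fun x hx hfix => Pool.Agent.R390.noinv (hbk D hD).1.1 x hx hfix, (hbk D hD).2.2⟩,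
      (hbk D hD).1.1, (hbk D hD).1.2, (hbk D hD).2.1⟩,
    ⟨D, fun j => K4H55.BD.tau h (D j), fun j => ⟨h5 j, h2 _ (h5 j), K4H55.BD.sg_tau h _⟩, h6⟩,
    ⟨K4H15.BW.tower_inf h h2 h5 (fun i j hij => ?_), K4H15.BW.tower_galois h h2,
    K4H15.BW.tower_noncomm h h2 (h5 0) (hnsq 0) ?_⟩, fun F hF hfin => ?_⟩
  · have h7 := h6 {i, j} ∅ (Or.inl ⟨i, Finset.mem_insert_self i _⟩)
    rwa [Finset.prod_pair hij, Finset.prod_empty, mul_one] at h7
  · have h7 := h6 {0} {0} (Or.inl ⟨0, Finset.mem_singleton_self 0⟩)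
    rwa [Finset.prod_singleton, Finset.prod_singleton] at h7
  · have h7 := K4H15.BW.tower_fin (a := (a : K)) (b := (b : K)) (fun D hD => (h4 D hD).2.1) h1 h3
      (fun h8 => hΔ (RingOfIntegers.ext (by
        simp only [map_add, map_mul, map_pow, map_ofNat, map_zero]
        exact h8)))
      (fun D hD => (hbk D hD).1.1) F hF
    have e : (curve a b 1).baseChange F =
        K4H55.BD.crv (algebraMap K F (a : K)) (algebraMap K F (b : K)) := by
      unfold curve K4H55.BD.crv WeierstrassCurve.baseChange WeierstrassCurve.map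
      simp
    rw [e]
    exact h7

end Pool.Agent.Results.MP_ec4e4b_nt.BianchiTowers
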