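import Mathlib
import Pool.Agent.K4H36.BK.Ext
import Pool.Agent.K4H36.BK.RelR

/-!
# The Bloch–Kato order formula reduces to base fields with one exceptional place

Let `K` be a number field with absolute Galois group `G = Gal(AlgebraicClosure K/K)`, let `L / K` be
a finite Galois extension inside the algebraic closure and let `m ≠ 0`. Typically `L` is a field
over which a given motive has semistable reduction everywhere and over which the Galois action on
its realisations modulo some integer is trivial, and `m` is divisible by the primes of bad
reduction, by the primes which ramify in `L` and by any other primes one wants to control.

**Nearly good fields.** A finite extension `F` of `K` inside the algebraic closure is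
`NearlyGood L F m` if the compositum `LF` is cyclic over `F` and if there is one prime `v` of `F`
such that `LF / F` is unramified at all finite places different from `v`, the places different from
`v` which divide `m` split completely in `LF / F`, and `v` is not decomposed in `LF / F`.

**The theorem.** There are finitely many nearly good fields `F 0, ..., F (r - 1)`, totally real if `L`
is totally real, such that

1. a positive multiple of the trivial character of `G` is an integral combination of the permutation
   characters `nco (F i)` of `G / Gal(AlgebraicClosure K/F i)` (the number of fixed cosets);
2. for every Chow motive `M` over `K` (in fact, for every family `V` of `p`-adic representations,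
   one for each prime `p`): if the Bloch–Kato order formula holds for `M` over each `F i`, then it
   holds for `M` over `K`;
3. if `M` has semistable (good) reduction over `L` everywhere and over `K` outside `m`, then `M` has
   semistable (good) reduction over `F i` at all places except possibly one.

If `K` is totally real, then only totally real fields are needed:

4. if `K` is totally real, there is a finite Galois extension `L'` of `K` which is totally real, such
   that all motives as in 3 have semistable (good) reduction over `L'` everywhere; so 1, 2, 3 can be
   used for `L'`, and the fields `F i` are then totally real.

The one exceptional place is necessary: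

5. if some place above `m` does not split completely in `L / K`, then no nonzero multiple of the
   trivial character of `G` is an integral combination of permutation characters of fields `F` such
   that all the places above `m` split completely in `LF / F`.

So the formula for all polarized Chow motives over all (totally real) number fields follows from the
case of the motives over (totally real) number fields which have semistable reduction outside one
place, and which acquire it there over a cyclic extension in which this place is not decomposed and
all other places above a given number split completely.

**The order formula.** `OrderFormula V 𝔅 F U` says what the problem asks for, for the family `V`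
over the field `F`:

* the polynomials `det (1 - Frob_w T | V_ℓ ^ (I_w))`, `ℓ` not below `w`, have rational coefficients
  and do not depend on `ℓ`; here `Frob_w` is the geometric Frobenius, `eulerPoly` is the
  polynomial, and the condition is imposed for all primes `W` of the ring of all algebraic integers
  above `w` and all (arithmetic) Frobenius automorphisms `φ` at `W`;
* the Euler product converges in a half plane `{c < re s}` contained in `U`, and continues to a
  meromorphic function on `U` (an open connected set containing `0`);
* for every prime `p` the order at `s = 0` of the L-function is
  `dim H¹_f (F, V_p) - dim H⁰ (F, V_p)`, where the dimensions are `SelmerDim` and `invDim`.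

The L-function is assumed to be meromorphic over the fields `F i` on half planes `{a < re s}` with
`a < 0`; over `K` it is then meromorphic on a connected open neighbourhood `U` of `0` which contains
a half plane.

**The Selmer group.** `IsSelmer` is the condition that a function `c` on the Galois group `H` of `F`
is a continuous cocycle which satisfies the local conditions of Bloch and Kato: at the primes `W`
not above `p` the restriction to the inertia group is a coboundary; at the primes `W` above `p` the
restriction to the decomposition group `{g | g W = W}` becomes a coboundary with values in
`V_p ⊗ B_crys (W)`. `SelmerDim` is the dimension of the space of these cocycles modulo the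
coboundaries. The modules `B_crys (W)` enter through the structure `Period`: `B` is the product
of the rings `B_crys` of the completed algebraic closures of `K` at all primes `W` above `p`, with
the action of `G`, and `N W` is the kernel of the projection to the factor at `W`. The theorem
holds for all modules of this shape, so nothing about `B_crys` is assumed.

**The proof.** Part 2 follows from part 1 by the following facts, all proved here: the lemma of
Shapiro for `H⁰`, for `H¹_f` with the local conditions, and for the Euler factors (inductivity), the
isomorphism of the representations `V_p ⊗ ℚ[X]` for finite `G`-sets `X` with the same numbers of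
fixed points, the theorem that a power series whose `M`-th power is rational is rational (so the
Euler polynomials over `K` are rational and independent of `ℓ`), the convergence of the Euler
product over `K`, and the extraction of an `M`-th root of a meromorphic function on a slit half
plane, where the order at `0` is divisible by `M`.
Part 1 is a generalization of the induction theorem of Artin (which gives fields `F` such that
`LF / F` is cyclic, with no control of the places). The fixed points of the elements of the
decomposition groups at two different places cannot be separated inside `Gal (L / K)`; one uses
infinitely many auxiliary cyclic extensions with prescribed local behaviour, and the fact that an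
element of a torsion free group which satisfies the relations of Brauer for all members of such
a tower is zero; see the files `Pool/Agent/K4H36/BK/Inv`, `Good`, `Loc`, `Main`, and
`Pool/Agent/K4H36/TR` for the totally real version. The auxiliary extensions are obtained from
polynomials with prescribed local behaviour (weak approximation, Krasner's lemma) and from the
theorem of F. K. Schmidt, which says that such extensions with different sets of places are linearly
disjoint; no class field theory is used.

The files in `Pool/Agent/K4H36/BK` and `Pool/Agent/K4H36/TR` were written by helper36, helper2,
helper3, helper32, helper43, helper64, helper83, helper85, helper88, helper94 and helper97.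
-/

set_option autoImplicit false

namespace Pool.Agent.Results.MP_ec4e4b_nt.OneBadPlace

open NumberField Pool.Agent.K4H36.BK
open scoped Pointwise

/-- **The Bloch–Kato order formula reduces to base fields with one exceptional place.** -/
theorem result {K : Type} [Field K] [NumberField K]
    (L : IntermediateField K (AlgebraicClosure K)) [FiniteDimensional K L] [IsGalois K L] {m : ℕ}
    (hm : m ≠ 0) :
    (∃ (r : ℕ) (F : Fin r → IntermediateField K (AlgebraicClosure K)),
      (∀ i, FiniteDimensional K (F i) ∧ NearlyGood L (F i) m) ∧
      (IsTotallyReal L → ∀ i, IsTotallyReal (F i)) ∧
      -- the trivial character as a combination of permutation characters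
      (∃ (n : ℤ) (c : Fin r → ℤ), 0 < n ∧
        ∀ g : Gal(AlgebraicClosure K/K), ∑ i, c i * (nco (F i) g : ℤ) = n) ∧
      -- the order formula over the fields `F i` implies the order formula over `K`
      (∀ (V : Fam K) (𝔅 : ∀ (p : ℕ) [Fact p.Prime], Period K ℚ_[p]),
        (∀ i, ∃ a < (0 : ℝ), OrderFormula V 𝔅 (F i) {s | a < s.re}) →
        ∃ U : Set ℂ, IsOpen U ∧ IsConnected U ∧ (0 : ℂ) ∈ U ∧ OrderFormula V 𝔅 ⊥ U) ∧
      -- the reduction type over the fields `F i`
      (∀ (V : Fam K) (k : ℕ),
        (∀ W : Ideal (𝓞 (AlgebraicClosure K)), W.IsMaximal →
          Reduction V k L.fixingSubgroup W) →
        (∀ W : Ideal (𝓞 (AlgebraicClosure K)), W.IsMaximal → (m : 𝓞 (AlgebraicClosure K)) ∉ W →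
          Reduction V k ⊤ W) →
        ∀ i, ∃ v : Ideal (𝓞 (F i)), ∀ W : Ideal (𝓞 (AlgebraicClosure K)), W.IsMaximal →
          W.comap (algebraMap (𝓞 (F i)) (𝓞 (AlgebraicClosure K))) ≠ v →
          Reduction V k (F i).fixingSubgroup W)) ∧
    -- over a totally real field `K` the field `L` can be replaced by a totally real field
    (IsTotallyReal K → ∃ L' : IntermediateField K (AlgebraicClosure K), FiniteDimensional K L' ∧
      IsGalois K L' ∧ IsTotallyReal L' ∧ ∀ (V : Fam K) (k : ℕ),
        (∀ W : Ideal (𝓞 (AlgebraicClosure K)), W.IsMaximal →
          Reduction V k L.fixingSubgroup W) →
        (∀ W : Ideal (𝓞 (AlgebraicClosure K)), W.IsMaximal → (m : 𝓞 (AlgebraicClosure K)) ∉ W →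
          Reduction V k ⊤ W) →
        ∀ W : Ideal (𝓞 (AlgebraicClosure K)), W.IsMaximal →
          Reduction V k L'.fixingSubgroup W) ∧
    -- one exceptional place is necessary
    ((∃ W : Ideal (𝓞 (AlgebraicClosure K)), W.IsMaximal ∧ (m : 𝓞 (AlgebraicClosure K)) ∈ W ∧
        ∃ g : Gal(AlgebraicClosure K/K), g • W = W ∧ ∃ x ∈ L, g x ≠ x) →
      ∀ (r : ℕ) (F : Fin r → IntermediateField K (AlgebraicClosure K)),
        (∀ i, ∀ W : Ideal (𝓞 (AlgebraicClosure K)), W.IsMaximal →
          (m : 𝓞 (AlgebraicClosure K)) ∈ W →
          ∀ g ∈ (F i).fixingSubgroup, g • W = W → ∀ x ∈ L, g x = x) →
        ∀ (n : ℤ) (c : Fin r → ℤ),
          (∀ g : Gal(AlgebraicClosure K/K), ∑ i, c i * (nco (F i) g : ℤ) = n) → n = 0) := by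
  refine ⟨?_, ?_, ?_⟩
  · obtain ⟨r, F, n, n', M, hM, hF, hreal, hrel⟩ := exists_rel_all L hm
    refine ⟨r, F, hF, hreal, ⟨M, fun i => (n' i : ℤ) - n i, by positivity, fun g => ?_⟩,
      fun V 𝔅 h => reduction_rel hM (fun i => (hF i).1) hrel V 𝔅 h,
      fun V k h1 h2 i => reduction_nearlyGood (hF i).2 V k h1 h2⟩
    have h := hrel g
    zify at h
    simp only [sub_mul, Finset.sum_sub_distrib]
    linarith
  · intro hK
    exact exists_real_reduction L hm
  · rintro ⟨W, hW, hmW, g, hg, x, hx, hgx⟩ r F hF n c h
    exact no_rel hW hmW hg hx hgx hF h

end Pool.Agent.Results.MP_ec4e4b_nt.OneBadPlace
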